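import Pool.Agent.Helper27.BG.St2

/-!
# Project BG: module CL1, sums of cell functions over tuples
-/

set_option autoImplicit false

namespace Pool.Agent.Helper27.BG

open Finset MeasureTheory
open Pool.Agent.Helper90.MT (DD piDD SW)

private theorem RR_ge_CL1 {M : ℕ} (hM : 1 ≤ M) : 1 ≤ RR M := by
  unfold RR
  exact Real.one_le_rpow (by exact_mod_cast hM) (by norm_num)

private theorem ud_nonneg_CL1 {M : ℕ} (hM : 1 ≤ M) (d : ℕ) : 0 ≤ ud M d := by
  unfold ud
  exact div_nonneg (Real.log_natCast_nonneg d) (Real.log_nonneg (RR_ge_CL1 hM))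

private theorem SS_nonneg_CL1 {W M : ℕ} (hM : 1 ≤ M) : 0 ≤ SS W M := by
  unfold SS
  exact mul_nonneg (by positivity) (Real.log_nonneg (RR_ge_CL1 hM))

private theorem cs1_meas_CL1 {κ : Type} [Fintype κ] (i : κ → ℕ) (t : ℕ) :
    MeasurableSet (cs1 i t) := by
  have h1 : cs1 i t = (⋂ h, ({u : κ → ℝ | 0 ≤ u h} ∩ {u : κ → ℝ | ⌊1000 * u h⌋₊ = i h})) ∩
      {u : κ → ℝ | ⌊1000 * ∑ h, u h⌋₊ = t} := by
    ext u
    simp only [cs1, Set.mem_setOf_eq, Set.mem_inter_iff, Set.mem_iInter]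
  rw [h1]
  apply MeasurableSet.inter
  · apply MeasurableSet.iInter
    intro h
    apply MeasurableSet.inter
    · exact measurableSet_le measurable_const (measurable_pi_apply h)
    · exact (Nat.measurable_floor.comp (measurable_const.mul (measurable_pi_apply h)))
        (measurableSet_singleton (i h))
  · have h2 : Measurable (fun u : κ → ℝ => ∑ h, u h) :=
      Finset.measurable_sum _ (fun h _ => measurable_pi_apply h)
    exact (Nat.measurable_floor.comp (measurable_const.mul h2)) (measurableSet_singleton t)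

private theorem cs1_sub_CL1 {κ : Type} [Fintype κ] {i : κ → ℕ} {t : ℕ} (hi : ∀ h, i h < 2000)
    (u : κ → ℝ) (hu : u ∈ cs1 i t) (h : κ) : u h ∈ Set.Ico (0 : ℝ) 2 := by
  obtain ⟨h1, -⟩ := hu
  obtain ⟨h2, h3⟩ := h1 h
  refine ⟨h2, ?_⟩
  have h4 : 1000 * u h < (⌊1000 * u h⌋₊ : ℝ) + 1 := Nat.lt_floor_add_one _
  rw [h3] at h4
  have h5 : (i h : ℝ) + 1 ≤ 2000 := by exact_mod_cast hi h
  linarith

private theorem cs1_ord_CL1 {κ : Type} [Fintype κ] [DecidableEq κ] (i : κ → ℕ) (t : ℕ) (h : κ)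
    (x : κ → ℝ) : {s : ℝ | Function.update x h s ∈ cs1 i t}.OrdConnected := by
  refine ⟨?_⟩
  intro a ha b hb s hs
  obtain ⟨ha1, ha2⟩ := ha
  obtain ⟨hb1, hb2⟩ := hb
  have hsum : ∀ s : ℝ, ∑ k, Function.update x h s k = s + ∑ k ∈ univ.erase h, x k := by
    intro s
    rw [← Finset.add_sum_erase univ _ (Finset.mem_univ h), Function.update_self]
    congr 1
    apply Finset.sum_congr rfl
    intro k hk
    rw [Function.update_of_ne (Finset.ne_of_mem_erase hk)]
  refine ⟨?_, ?_⟩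
  · intro k
    by_cases hk : k = h
    · subst hk
      have e1 := ha1 k
      have e2 := hb1 k
      rw [Function.update_self] at e1 e2 ⊢
      refine ⟨e1.1.trans hs.1, le_antisymm ?_ ?_⟩
      · rw [← e2.2]
        exact Nat.floor_le_floor (by linarith [hs.2])
      · rw [← e1.2]
        exact Nat.floor_le_floor (by linarith [hs.1])
    · have e1 := ha1 k
      rw [Function.update_of_ne hk] at e1 ⊢
      exact e1
  · rw [hsum] at ha2 hb2 ⊢
    apply le_antisymm
    · rw [← hb2]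
      exact Nat.floor_le_floor (by linarith [hs.2])
    · rw [← ha2]
      exact Nat.floor_le_floor (by linarith [hs.1])

private theorem mem_cs1_CL1 {κ : Type} [Fintype κ] {M : ℕ} (hM : 1 ≤ M) (x : κ → ℕ)
    (i : κ → ℕ) (t : ℕ) : (fun h => ud M (x h)) ∈ cs1 i t ↔
      (fun h => cellN M (x h)) = i ∧ totN M x = t := by
  constructor
  · rintro ⟨h1, h2⟩
    exact ⟨funext fun h => (h1 h).2, h2⟩
  · rintro ⟨h1, h2⟩
    exact ⟨fun h => ⟨ud_nonneg_CL1 hM _, congrFun h1 h⟩, h2⟩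

open Classical in
private theorem cell_sum_CL1 {κ : Type} [Fintype κ] [DecidableEq κ] {M : ℕ} (hM : 1 ≤ M)
    (Γ : (κ → ℕ) → ℕ → ℝ) (T : ℕ) (hΓ : ∀ i t, Γ i t ≠ 0 → (∀ h, i h < T) ∧ t < T)
    (x : κ → ℕ) : Γ (fun h => cellN M (x h)) (totN M x) =
      ∑ i ∈ Fintype.piFinset (fun _ : κ => range T), ∑ t ∈ range T,
        Γ i t * (if (fun h => ud M (x h)) ∈ cs1 i t then 1 else 0) := by
  by_cases h0 : Γ (fun h => cellN M (x h)) (totN M x) = 0
  · rw [h0]
    symm
    apply Finset.sum_eq_zero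
    intro i _
    apply Finset.sum_eq_zero
    intro t _
    by_cases h1 : (fun h => ud M (x h)) ∈ cs1 i t
    · obtain ⟨h2, h3⟩ := (mem_cs1_CL1 hM x i t).1 h1
      rw [← h2, ← h3, h0, zero_mul]
    · rw [if_neg h1, mul_zero]
  · obtain ⟨h1, h2⟩ := hΓ _ _ h0
    rw [Finset.sum_eq_single (fun h => cellN M (x h)), Finset.sum_eq_single (totN M x),
      if_pos ((mem_cs1_CL1 hM x _ _).2 ⟨rfl, rfl⟩), mul_one]
    · intro t _ ht
      rw [if_neg, mul_zero]
      intro h3
      exact ht ((mem_cs1_CL1 hM x _ _).1 h3).2.symm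
    · intro h3
      exact absurd (Finset.mem_range.2 h2) h3
    · intro i _ hi
      apply Finset.sum_eq_zero
      intro t _
      rw [if_neg, mul_zero]
      intro h3
      exact hi ((mem_cs1_CL1 hM x _ _).1 h3).1.symm
    · intro h3
      exact absurd (Fintype.mem_piFinset.2 fun h => Finset.mem_range.2 (h1 h)) h3

theorem hCl1 : StCl1 := by
  classical
  intro hMul hOne hSWs hDDw κ _ _ Γ T hT hΓ ε hε
  set P : Finset (κ → ℕ) := Fintype.piFinset (fun _ : κ => range T) with hP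
  set G : ℝ := ∑ i ∈ P, ∑ t ∈ range T, |Γ i t| with hG
  have hG0 : 0 ≤ G := Finset.sum_nonneg fun i _ => Finset.sum_nonneg fun t _ => abs_nonneg _
  set K : ℕ := Fintype.card κ with hK
  set B : ℝ := G * (K * 5 * 7 ^ (K - 1)) with hB
  have hB0 : 0 ≤ B := by positivity
  refine ⟨max 1 ⌈B / ε⌉₊, ?_⟩
  intro w hw W hW
  have hw1 : 1 ≤ w := (le_max_left _ _).trans hw
  have hwR : (1 : ℝ) ≤ w := by exact_mod_cast hw1
  have hwB : B / w ≤ ε := by
    have h1 : ⌈B / ε⌉₊ ≤ w := (le_max_right _ _).trans hw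
    have h2 : B / ε ≤ w := (Nat.le_ceil _).trans (by exact_mod_cast h1)
    rw [div_le_iff₀ hε] at h2
    rw [div_le_iff₀ (by linarith)]
    linarith
  obtain ⟨M₁, hM₁⟩ := hOne hSWs hDDw w hw1 W hW
  refine ⟨max M₁ 1, ?_⟩
  intro M hM
  have hM1 : 1 ≤ M := (le_max_right _ _).trans hM
  have hone := hM₁ M ((le_max_left _ _).trans hM)
  set S : ℝ := SS W M with hS
  have hS0 : 0 ≤ S := SS_nonneg_CL1 hM1
  have hδ0 : 0 ≤ 5 / (w : ℝ) * S := by positivity
  have hmul := hMul (Pw W M) κ (pw W M) (ud M) S (5 / w * S) hS0 hδ0 hone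
  -- the error term of one cell
  set R : ℝ := (K : ℝ) * (5 / w * S) * (2 * S + 5 / w * S) ^ (K - 1) with hR
  have hcell : ∀ i ∈ P, ∀ t ∈ range T,
      |∑ x ∈ piDD κ (pw W M), (if (fun h => ud M (x h)) ∈ cs1 i t then
        (∏ h, (x h : ℝ))⁻¹ else 0) - S ^ K * (volume (cs1 i t)).toReal| ≤ R := by
    intro i hi t _
    apply hmul (cs1 i t) (cs1_meas_CL1 i t)
    · intro u hu h
      refine cs1_sub_CL1 ?_ u hu h
      intro h'
      exact lt_of_lt_of_le (Finset.mem_range.1 (Fintype.mem_piFinset.1 hi h')) hT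
    · intro h x
      exact cs1_ord_CL1 i t h x
  -- rewriting the sum
  have hsum : ∑ x ∈ piDD κ (pw W M), Γ (fun h => cellN M (x h)) (totN M x) / ∏ h, (x h : ℝ) =
      ∑ i ∈ P, ∑ t ∈ range T, Γ i t * ∑ x ∈ piDD κ (pw W M),
        (if (fun h => ud M (x h)) ∈ cs1 i t then (∏ h, (x h : ℝ))⁻¹ else 0) := by
    have h1 : ∀ x ∈ piDD κ (pw W M),
        Γ (fun h => cellN M (x h)) (totN M x) / ∏ h, (x h : ℝ) =
        ∑ i ∈ P, ∑ t ∈ range T, Γ i t *
          (if (fun h => ud M (x h)) ∈ cs1 i t then (∏ h, (x h : ℝ))⁻¹ else 0) := by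
      intro x _
      rw [cell_sum_CL1 hM1 Γ T hΓ x, div_eq_mul_inv, Finset.sum_mul]
      apply Finset.sum_congr rfl
      intro i _
      rw [Finset.sum_mul]
      apply Finset.sum_congr rfl
      intro t _
      rw [mul_assoc]
      congr 1
      split_ifs
      · rw [one_mul]
      · rw [zero_mul]
    rw [Finset.sum_congr rfl h1, Finset.sum_comm]
    apply Finset.sum_congr rfl
    intro i _
    rw [Finset.sum_comm]
    apply Finset.sum_congr rfl
    intro t _
    rw [Finset.mul_sum]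
  rw [hsum]
  have hdiff : ∑ i ∈ P, ∑ t ∈ range T, Γ i t * ∑ x ∈ piDD κ (pw W M),
        (if (fun h => ud M (x h)) ∈ cs1 i t then (∏ h, (x h : ℝ))⁻¹ else 0) -
      S ^ K * ∑ i ∈ P, ∑ t ∈ range T, Γ i t * (volume (cs1 i t)).toReal =
      ∑ i ∈ P, ∑ t ∈ range T, Γ i t * (∑ x ∈ piDD κ (pw W M),
        (if (fun h => ud M (x h)) ∈ cs1 i t then (∏ h, (x h : ℝ))⁻¹ else 0) -
        S ^ K * (volume (cs1 i t)).toReal) := by
    rw [Finset.mul_sum, ← Finset.sum_sub_distrib]
    apply Finset.sum_congr rfl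
    intro i _
    rw [Finset.mul_sum, ← Finset.sum_sub_distrib]
    apply Finset.sum_congr rfl
    intro t _
    ring
  rw [hdiff]
  have hbound : |∑ i ∈ P, ∑ t ∈ range T, Γ i t * (∑ x ∈ piDD κ (pw W M),
        (if (fun h => ud M (x h)) ∈ cs1 i t then (∏ h, (x h : ℝ))⁻¹ else 0) -
        S ^ K * (volume (cs1 i t)).toReal)| ≤ G * R := by
    refine (Finset.abs_sum_le_sum_abs _ _).trans ?_
    rw [hG, Finset.sum_mul]
    apply Finset.sum_le_sum
    intro i hi
    refine (Finset.abs_sum_le_sum_abs _ _).trans ?_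
    rw [Finset.sum_mul]
    apply Finset.sum_le_sum
    intro t ht
    rw [abs_mul]
    exact mul_le_mul_of_nonneg_left (hcell i hi t ht) (abs_nonneg _)
  refine hbound.trans ?_
  -- the size of the error
  rcases Nat.eq_zero_or_pos K with hK0 | hK0
  · have : R = 0 := by
      rw [hR, hK0]
      simp
    rw [this, mul_zero]
    positivity
  · have h1 : (2 * S + 5 / w * S) ^ (K - 1) ≤ (7 * S) ^ (K - 1) := by
      apply pow_le_pow_left₀ (by positivity)
      have h2 : 5 / (w : ℝ) ≤ 5 := div_le_self (by norm_num) hwR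
      have h3 : 5 / (w : ℝ) * S ≤ 5 * S := mul_le_mul_of_nonneg_right h2 hS0
      linarith
    have h2 : R ≤ (K : ℝ) * (5 / w * S) * (7 * S) ^ (K - 1) :=
      mul_le_mul_of_nonneg_left h1 (by positivity)
    have h3 : G * ((K : ℝ) * (5 / w * S) * (7 * S) ^ (K - 1)) = B / w * S ^ K := by
      obtain ⟨k, hk⟩ : ∃ k, K = k + 1 := ⟨K - 1, by omega⟩
      rw [hB, hk, Nat.add_sub_cancel, mul_pow, pow_succ]
      ring
    calc G * R ≤ G * ((K : ℝ) * (5 / w * S) * (7 * S) ^ (K - 1)) :=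
          mul_le_mul_of_nonneg_left h2 hG0
      _ = B / w * S ^ K := h3
      _ ≤ ε * S ^ K := mul_le_mul_of_nonneg_right hwB (by positivity)

end Pool.Agent.Helper27.BG
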